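import Pool.Agent.Lib.MP_e11118_lc.Dfa

/-!
# MP_e11118_lc: deleting does not help with sublinearly many changes of the list

A deterministic forgetting automaton with `s` states whose long accepted words `w` are accepted
with at most `|w| / K` erasures and deletions, `K = 2 (2 ^ (2 s (2 s + 1)) + 1)`, accepts a
regular language. So the deterministic families with the operations `(MV, ER)` and `(MV, ER, DL)`
coincide for `o(n)` changes: both consist of the regular languages.
-/

set_option autoImplicit false

open Filter Asymptotics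

namespace Pool.Agent.Results.MP_e11118_lc.SublinearChanges

open Pool.Agent.Lib.MP_e11118_lc

/-- The languages over `A` accepted by a deterministic forgetting automaton with operations in
`O` so that every word `w` of the language is accepted after at most `g |w|` changes (erasures of
letters and deletions). -/
def ChangeFamily (A : Type) (O : Set Op) (g : ℕ → ℕ) : Set (Language A) :=
  {L | ∃ M : Forg A, M.Uses O ∧ M.Det ∧ M.lang = L ∧
    ∀ w ∈ L, M.AcceptsChanges w (g w.length)}

theorem bd_eq {A : Type} (M : Forg A) :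
    M.bd = 2 ^ (2 * Nat.card M.S * (2 * Nat.card M.S + 1)) + 1 := by
  classical
  have hS : Finite M.S := M.fin
  have : Fintype M.S := Fintype.ofFinite M.S
  unfold Forg.bd
  rw [Nat.card_eq_fintype_card, Nat.card_eq_fintype_card, Fintype.card_set, Fintype.card_prod,
    Fintype.card_option, Fintype.card_prod, Fintype.card_bool]

theorem few_of_littleO {K : ℕ} (hK : 0 < K) {g : ℕ → ℕ}
    (hg : (fun n => (g n : ℝ)) =o[atTop] (fun n => (n : ℝ))) :
    ∃ n₀ : ℕ, ∀ n, n₀ ≤ n → g n ≤ n / K := by
  have hK' : (0 : ℝ) < K := by exact_mod_cast hK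
  have h1 := (isLittleO_iff.mp hg) (c := 1 / K) (by positivity)
  obtain ⟨n₀, h2⟩ := eventually_atTop.mp h1
  refine ⟨n₀, fun n hn => ?_⟩
  have h3 := h2 n hn
  rw [Real.norm_of_nonneg (by positivity), Real.norm_of_nonneg (by positivity)] at h3
  rw [Nat.le_div_iff_mul_le hK]
  have h4 : (g n : ℝ) * K ≤ n := by
    rw [one_div, inv_mul_eq_div, le_div_iff₀ hK'] at h3
    exact h3
  exact_mod_cast h4

/-- (1) If all accepted words `w` of length at least `n₀` are accepted after at most `|w| / K`
changes, where `K` depends only on the number of states, then the language is regular.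
(2) For every set `O` of operations which contains `MV_R`, in particular for `(MV, ER)` and for
`(MV, ER, DL)`: for `g = o(n)` the family with at most `g |w|` changes is the family of the
regular languages, while for `g ≥ 2 n` it is the family of all languages accepted by
deterministic automata with operations in `O`. -/
theorem result {A : Type} :
    (∀ M : Forg A, M.Det → ∀ n₀ : ℕ,
      (∀ w ∈ M.lang, n₀ ≤ w.length → M.AcceptsChanges w (w.length /
        (2 * (2 ^ (2 * Nat.card M.S * (2 * Nat.card M.S + 1)) + 1)))) →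
      M.lang.IsRegular) ∧
    ∀ O : Set Op, Op.mvR ∈ O →
      (∀ g : ℕ → ℕ, (fun n => (g n : ℝ)) =o[atTop] (fun n => (n : ℝ)) →
        ChangeFamily A O g = {L | L.IsRegular}) ∧
      ∀ g : ℕ → ℕ, (∀ n, 2 * n ≤ g n) →
        ChangeFamily A O g = {L | ∃ M : Forg A, M.Uses O ∧ M.Det ∧ M.lang = L} := by
  refine ⟨?_, fun O hO => ⟨?_, ?_⟩⟩
  · intro M hM n₀ h
    rw [← bd_eq] at h
    exact regular_of_few hM h
  · intro g hg
    ext L
    constructor
    · rintro ⟨M, _, hM, rfl, h⟩
      obtain ⟨n₀, h1⟩ := few_of_littleO (K := 2 * M.bd)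
        (Nat.mul_pos two_pos (Nat.succ_pos _)) hg
      refine regular_of_few hM (n₀ := n₀) fun w hw hn => ?_
      obtain ⟨c, t, ms, h2, h3, h4⟩ := h w hw
      exact ⟨c, t, ms, h2, h3, h4.trans (h1 _ hn)⟩
    · intro hL
      obtain ⟨M, h1, h2, h3, h4⟩ := exists_of_regular hL hO
      refine ⟨M, h1, h2, h3, fun w hw => ?_⟩
      obtain ⟨c, t, ms, h5, h6, h7⟩ := h4 w hw
      exact ⟨c, t, ms, h5, h6, h7.trans (Nat.zero_le _)⟩
  · intro g hg
    ext L
    constructor
    · rintro ⟨M, h1, h2, h3, _⟩
      exact ⟨M, h1, h2, h3⟩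
    · rintro ⟨M, h1, h2, rfl⟩
      refine ⟨M, h1, h2, rfl, fun w hw => ?_⟩
      obtain ⟨t, ms, h⟩ := mem_lang_iff.mp hw
      exact acceptsChanges_iff.mpr ⟨t, ms, h, h.le_two.trans (hg _)⟩

end Pool.Agent.Results.MP_e11118_lc.SublinearChanges
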